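import Pool.Agent.Y142.Split
import Pool.Agent.U707.LI.Stm

/-!
# Project LI (helper707), package CHEB: Chebotarev for sets of places of positive upper density
-/

set_option autoImplicit false

open NumberField Filter Topology IsDedekindDomain Module Pool.Agent.W401.Cheb

namespace Pool.Agent.U784.LI

section
variable {K : Type} [Field K] [NumberField K]

theorem dens_le {P Q : HeightOneSpectrum (𝓞 K) → Prop} (h : ∀ v, P v → Q v) (N : ℕ) :
    dens P N ≤ dens Q N := by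
  have hfin := Pool.Agent.W352.ChAbs.finite_le (K := K) N
  have hfin2 : Finite {v : HeightOneSpectrum (𝓞 K) // Ideal.absNorm v.asIdeal ≤ N ∧ Q v} :=
    (hfin.subset (fun v (hv : Ideal.absNorm v.asIdeal ≤ N ∧ Q v) => hv.1)).to_subtype
  unfold dens
  apply div_le_div_of_nonneg_right _ (Nat.cast_nonneg _)
  exact_mod_cast Nat.card_le_card_of_injective
    (fun v : {v : HeightOneSpectrum (𝓞 K) // Ideal.absNorm v.asIdeal ≤ N ∧ P v} =>
      (⟨v.1, v.2.1, h v.1 v.2.2⟩ : {v : HeightOneSpectrum (𝓞 K) //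
        Ideal.absNorm v.asIdeal ≤ N ∧ Q v}))
    (fun v w hvw => by
      apply Subtype.ext
      have h1 := congrArg Subtype.val hvw
      exact h1)

end

theorem t_CHEB : Pool.Agent.U707.LI.S_CHEB := by
  intro K _ _ C hC P δ hδ hP U hU hUo
  have : U.Normal := hU
  set C' : Set (GK K) := {s | ∃ u ∈ U, s * u ∈ C} with hC'
  have h1 : ∀ σ ∈ C', ∀ τ : GK K, τ * σ * τ⁻¹ ∈ C' := by
    rintro σ ⟨u, hu, hσ⟩ τ
    refine ⟨τ * u * τ⁻¹, hU.conj_mem u hu τ, ?_⟩
    have h2 : τ * σ * τ⁻¹ * (τ * u * τ⁻¹) = τ * (σ * u) * τ⁻¹ := by group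
    rw [h2]
    exact hC _ hσ τ
  have h2 : ∀ σ ∈ C', ∀ u ∈ U, σ * u ∈ C' := by
    rintro σ ⟨u, hu, hσ⟩ v hv
    refine ⟨v⁻¹ * u, U.mul_mem (U.inv_mem hv) hu, ?_⟩
    have h3 : σ * v * (v⁻¹ * u) = σ * u := by group
    rwa [h3]
  have h3 : (QuotientGroup.mk : GK K → GK K ⧸ U) '' C' = (QuotientGroup.mk : GK K → GK K ⧸ U) '' C := by
    ext x
    constructor
    · rintro ⟨s, ⟨u, hu, hs⟩, rfl⟩
      refine ⟨s * u, hs, ?_⟩
      rw [QuotientGroup.mk_mul_of_mem s hu]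
    · rintro ⟨s, hs, rfl⟩
      exact ⟨s, ⟨1, U.one_mem, by rwa [mul_one]⟩, rfl⟩
  have h4 := Pool.Agent.Y142.chebK K U hUo C' h1 h2
  rw [h3] at h4
  have h5 : δ ≤ (((QuotientGroup.mk : GK K → GK K ⧸ U) '' C).ncard : ℝ) /
      (Nat.card (GK K ⧸ U) : ℝ) := by
    by_contra hcon
    push Not at hcon
    have h6 := h4.eventually_lt_const hcon
    obtain ⟨N, h7, h8⟩ := (hδ.and_eventually h6).exists
    have h9 : dens (fun v => v ∈ P) N ≤
        dens (fun v : HeightOneSpectrum (𝓞 K) => ∃ σ ∈ C', IsFrob v σ) N := by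
      refine dens_le (fun v hv => ?_) N
      obtain ⟨g, hg, hgv⟩ := hP v hv
      exact ⟨g, ⟨1, U.one_mem, by rwa [mul_one]⟩, hgv⟩
    exact absurd (h7.trans h9) (not_le.2 h8)
  have hfin : Finite (GK K ⧸ U) := Subgroup.quotient_finite_of_isOpen U hUo
  have h6 : (0 : ℝ) < Nat.card (GK K ⧸ U) := by exact_mod_cast Nat.card_pos
  rwa [le_div_iff₀ h6] at h5

end Pool.Agent.U784.LI
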